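import Pool.Agent.H191Z.RMain
import Pool.Agent.H549Z.Curve
import Pool.Agent.H784Z.Rig.Fields

set_option autoImplicit false

universe w w' u v

namespace Pool.Agent.Results.MP_e6d05b_ag.AFunctionFields

open CategoryTheory AlgebraicGeometry Pool.Agent.H191Z.Gerbe

/-- Over the rational function field `k` in `d` variables over the field with five elements
there is a proper smooth geometrically connected curve `X` of genus at least two such that for
every profinite gerbe `P` with a morphism from `X` (in particular for the Nori fundamental gerbe)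
the map from rational points of `X` to isomorphism classes of rational points of `P` is not
surjective. -/
theorem result (d : ℕ) (k : Type) [Field k] [Algebra (MvPolynomial (Fin d) (ZMod 5)) k]
    [IsFractionRing (MvPolynomial (Fin d) (ZMod 5)) k] :
    ∃ X : Sch k, IsProper X.hom ∧ SmoothOfRelativeDimension 1 X.hom ∧
      GeometricallyConnected X.hom ∧ 2 ≤ genus X ∧
      ∀ P : CatOver.{u} (Sch k), IsProfiniteGerbe.{w, w', u, v} P →
        ∀ f : Mor (CatOver.rep X) P, ¬ Function.Surjective (sectionMap f) := by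
  haveI : Fact (Nat.Prime 5) := ⟨by norm_num⟩
  let e := (FractionRing.algEquiv (MvPolynomial (Fin d) (ZMod 5)) k).symm.toRingEquiv
  haveI : CharP k 5 := charP_of_injective_algebraMap
    (IsFractionRing.injective (MvPolynomial (Fin d) (ZMod 5)) k) 5
  obtain ⟨X, A0, A1, A, _, _, _, D, P0, P1, h1, h2, h3, h4, h5, n0, n1, hov, hdom, B, _, _, ⟨α⟩,
    hB⟩ := Pool.Agent.H549Z.Curve.curve k (fun x y z h => by
      have := Pool.Agent.H784Z.Rig.no_zero d (e x) (e y) (e z) (by
        rw [← map_pow, ← map_pow, ← map_pow, ← map_add, ← map_add, h, map_zero])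
      simpa using this)
  obtain ⟨L, _, _, σ, K, _, _, ι, hfix, horb, hK, ⟨R⟩⟩ := Pool.Agent.H784Z.Rig.exists_fields 5 d
  letI : Algebra k L := ((algebraMap _ L).comp e.toRingHom).toAlgebra
  let σ' : L ≃ₐ[k] L := AlgEquiv.ofRingEquiv (f := σ.toRingEquiv) (fun c => σ.commutes (e c))
  have hpow : ∀ (n : ℕ) (x : L), (σ' ^ n) x = (σ ^ n) x := by
    intro n
    induction n with
    | zero => exact fun _ => rfl
    | succ n ih => exact fun x => by rw [pow_succ, pow_succ]; exact ih (σ x)
  haveI : CharP L 5 := charP_of_injective_algebraMap (algebraMap k L).injective 5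
  haveI : CharP K 5 := RingHom.charP ι ι.injective 5
  obtain ⟨β⟩ := hB K
  refine ⟨X, h1, h2, h3, h4, fun P hP f hs => ?_⟩
  obtain ⟨y⟩ := Pool.Agent.H191Z.Rig.neutral_of_curve σ' (fun x hx => by
      obtain ⟨c, rfl⟩ := hfix x hx
      exact ⟨e.symm c, congrArg (algebraMap _ L) (e.apply_symm_apply c)⟩)
    (fun N hN => by simpa only [hpow] using horb N hN) 5 R
    (by rintro _ ⟨c, rfl⟩; exact hK c) D P0 P1 n0 n1 hov hdom α (ι.comp β)
    (fun b => ⟨_, rfl⟩) hP f
  obtain ⟨p, -⟩ := hs (Quot.mk _ y)
  exact h5.false p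

end Pool.Agent.Results.MP_e6d05b_ag.AFunctionFields
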